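import Pool.Agent.R351.GD.H.Tup

/-!
# The period conjecture for tuples of hypergeometric motives: relations of growing degree

Let `β_1, …, β_m` be rational numbers which are not integers, `n = 2m` and `θ = z d/dz`. The hypergeometric operator
`θ^n - z ∏_j (θ - β_j) (θ + β_j)` has maximally unipotent monodromy at `z = 0`; the mirror quintic family is contiguous to
the case `β = (1/5, 2/5)`. The period matrices of the corresponding family of motives at `z` near `0` are `A(z) Y(z) Ω` with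
the matrix `Y` of the derivatives of the Frobenius solutions, `A` over `ℚ(z)` and `Ω` constant (the periods of the limit).
We count the `k`-tuples of fibres at `z_i = 1 / t_i`, `t_i ≤ T`, of `k` such families, whose periods satisfy a relation of
degree `≤ δ` over a number field of degree `≤ δ` which does not come from the symplectic groups: there are at most
`C T^(k - 1 / (δ + 2)^C)` of them, uniformly in `δ` and in the constants. Hence for almost all tuples the periods satisfy
the prediction of Grothendieck's period conjecture for all relations of degree up to a power of `log T`.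
-/

set_option autoImplicit false

open PowerSeries Pool.Agent.Y119.HZ

namespace Pool.Agent.Results.MP_cbf1af_ag.GrowingDegreeTuples

/-- the power series `k + ε` in the variable `ε` -/
noncomputable def shift (k : ℕ) : PowerSeries ℚ := C (k : ℚ) + X

/-- `a_k(ε) = ∏_{l < k} ∏_j ((l + ε)^2 - β_j^2) / (l + 1 + ε)^(2m)`. The series `∑_k a_k(ε) z^(k + ε)` solves the
equation `(θ^n - z ∏_j (θ^2 - β_j^2)) f = ε^n z^ε`, hence its coefficients `f_j` at `ε^j` with `j < n = 2m` are
solutions of the homogeneous equation. -/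
noncomputable def frob {m : ℕ} (β : Fin m → ℚ) (k : ℕ) : PowerSeries ℚ :=
  ∏ l ∈ Finset.range k, ((∏ j, (shift l ^ 2 - C (β j ^ 2))) * ((shift (l + 1))⁻¹) ^ (2 * m))

/-- The matrix with the entries `(θ^i f_j)(z)` at `z = 1 / t`, where `f_j(z)` is the coefficient of `ε^j` in the series
`∑_k a_k(ε) z^(k + ε)`, `z^ε = ∑_a (log z)^a ε^a / a!`. -/
noncomputable def Y {m : ℕ} (β : Fin m → ℚ) (t : ℕ) : Matrix (Fin (2 * m)) (Fin (2 * m)) ℂ :=
  Matrix.of fun i j => ∑ a ∈ Finset.range ((j : ℕ) + 1), ((Real.log (1 / t) ^ a / a.factorial : ℝ) : ℂ) *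
    ∑' k : ℕ, ((coeff ((j : ℕ) - a) (shift k ^ (i : ℕ) * frob β k) : ℚ) : ℂ) * (1 / (t : ℂ)) ^ k

/-- the polynomial `∏_j (x^2 - β_j^2)` -/
noncomputable def poly {m : ℕ} (β : Fin m → ℚ) : Polynomial ℚ := ∏ j, (Polynomial.X ^ 2 - Polynomial.C (β j ^ 2))

/-- The matrix of the intersection form: the entry `(i, j)` is `(-1)^i q_{i+j+1-n}` for `i + j + 1 ≥ n` and `0`
otherwise, where `q_l` are the coefficients of `∏_j (x^2 - β_j^2)`. -/
noncomputable def J {m : ℕ} (β : Fin m → ℚ) : Matrix (Fin (2 * m)) (Fin (2 * m)) ℂ :=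
  Matrix.of fun i j => if 2 * m ≤ (i : ℕ) + j + 1 then (((-1) ^ (i : ℕ) * (poly β).coeff (i + j + 1 - 2 * m) : ℚ) : ℂ) else 0

/-- the symplectic group of the form `J` -/
def Sp {m : ℕ} (β : Fin m → ℚ) : Set (Matrix (Fin (2 * m)) (Fin (2 * m)) ℂ) := {g | g.transpose * J β * g = J β}

/-- the point with the coordinates `l_i` and the entries of the matrices `X_i` -/
def point {k n : ℕ} (l : Fin k → ℂ) (X : Fin k → Matrix (Fin n) (Fin n) ℂ) : Fin k × Option (Fin n × Fin n) → ℂ
  | (i, none) => l i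
  | (i, some p) => X i p.1 p.2

/-- the coordinates of the constants: the entries of the `Ω_i` and `q` further numbers `w` -/
def consts {k n q : ℕ} (Ω : Fin k → Matrix (Fin n) (Fin n) ℂ) (w : Fin q → ℂ) : Fin k × Fin n × Fin n ⊕ Fin q → ℂ :=
  Sum.elim (fun p => Ω p.1 p.2.1 p.2.2) w

/-- For all number fields `K` of degree `≤ δ`, every polynomial of degree `≤ δ` over `K` which vanishes at the point with
the coordinates `Ω_i`, `w`, `log t_i` and the entries of the period matrices `Y_i(1 / t_i) Ω_i` vanishes at all points with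
the coordinates `Ω_i`, `w`, `l_i ∈ ℂ` and the entries of `g_i Ω_i` with `g_i` in the symplectic group `Sp(J_i)`. -/
def Generic {m k q : ℕ} (δ : ℕ) (β : Fin k → Fin m → ℚ) (Ω : Fin k → Matrix (Fin (2 * m)) (Fin (2 * m)) ℂ) (w : Fin q → ℂ)
    (t : Fin k → ℕ) : Prop :=
  ∀ K : IntermediateField ℚ ℂ, FiniteDimensional ℚ K → Module.finrank ℚ K ≤ δ →
    ∀ P : MvPolynomial ((Fin k × Fin (2 * m) × Fin (2 * m) ⊕ Fin q) ⊕ Fin k × Option (Fin (2 * m) × Fin (2 * m))) K,
    P.totalDegree ≤ δ →
    MvPolynomial.aeval (Sum.elim (consts Ω w) (point (fun i => ((Real.log (t i) : ℝ) : ℂ))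
      fun i => Y (β i) (t i) * Ω i)) P = 0 →
    ∀ (l : Fin k → ℂ) (g : Fin k → Matrix (Fin (2 * m)) (Fin (2 * m)) ℂ), (∀ i, g i ∈ Sp (β i)) →
      MvPolynomial.aeval (Sum.elim (consts Ω w) (point l fun i => g i * Ω i)) P = 0

theorem shift_eq (k : ℕ) : shift k = Pool.Agent.Y119.HY.kx k := rfl

theorem frob_eq {m : ℕ} (β : Fin m → ℚ) (k : ℕ) : frob β k = Pool.Agent.Y119.HY.aq (2 * m) (Pool.Agent.Y119.HY.QB β) k := by
  unfold frob Pool.Agent.Y119.HY.aq
  refine Finset.prod_congr rfl fun l _ => ?_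
  congr 1
  unfold Pool.Agent.Y119.HY.QB
  rw [map_prod]
  refine Finset.prod_congr rfl fun j _ => ?_
  simp only [map_sub, map_pow, Polynomial.aeval_X, Polynomial.aeval_C]
  rfl

theorem J_eq {m : ℕ} (β : Fin m → ℚ) :
    J β = Pool.Agent.Y119.HY.cm (Pool.Agent.Y119.HY.Jm (2 * m) (Pool.Agent.Y119.HY.QB β)) := by
  ext i j
  rw [Pool.Agent.Y119.HY.cm_apply]
  unfold J Pool.Agent.Y119.HY.Jm
  rw [Matrix.of_apply, Matrix.of_apply]
  split_ifs
  · rfl
  · simp

theorem Y_eq {m : ℕ} (β : Fin m → ℚ) (t : ℕ) :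
    Y β t = Pool.Agent.Y119.HZ.Yt (2 * m) (Pool.Agent.Y119.HY.QB β) t := by
  ext i j
  unfold Y Pool.Agent.Y119.HZ.Yt
  rw [Matrix.of_apply, Matrix.mul_apply]
  have hE : ∀ c : Fin (2 * m), Pool.Agent.Y119.HY.E (Pool.Agent.Y119.HY.cm (Pool.Agent.Y119.HY.Am (2 * m)))
      (-((Real.log t : ℝ) : ℂ)) c j = ∑ l ∈ Finset.range (2 * m),
        if (j : ℕ) = c + l then ((Real.log (1 / t) ^ l / l.factorial : ℝ) : ℂ) else 0 := by
    intro c
    unfold Pool.Agent.Y119.HY.E
    rw [Matrix.sum_apply]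
    refine Finset.sum_congr rfl fun l _ => ?_
    rw [Matrix.smul_apply, ← Pool.Agent.Y119.HY.cm_pow, Pool.Agent.Y119.HY.cm_apply, Pool.Agent.Y119.HY.Am_pow, smul_eq_mul,
      one_div, Real.log_inv]
    split_ifs
    · push_cast
      ring
    · simp
  simp only [hE, Finset.mul_sum]
  rw [Finset.sum_comm]
  have hsub : Finset.range ((j : ℕ) + 1) ⊆ Finset.range (2 * m) := by
    intro l hl
    rw [Finset.mem_range] at hl ⊢
    have := j.2
    omega
  refine Finset.sum_subset_zero_on_sdiff hsub (fun l hl => ?_) fun l hl => ?_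
  · rw [Finset.mem_sdiff, Finset.mem_range, Finset.mem_range] at hl
    refine Finset.sum_eq_zero fun c _ => ?_
    rw [if_neg (by omega), mul_zero]
  · rw [Finset.mem_range] at hl
    have hj := j.2
    rw [Finset.sum_eq_single (⟨(j : ℕ) - l, by omega⟩ : Fin (2 * m))]
    · rw [if_pos (by simp only; omega), mul_comm]
      congr 1
      unfold Pool.Agent.Y119.HY.Hf Pool.Agent.Y119.HY.ps
      rw [Matrix.of_apply]
      refine tsum_congr fun k => ?_
      show _ = ((Pool.Agent.Y119.HY.hq (2 * m) (Pool.Agent.Y119.HY.QB β) k i ((j : ℕ) - l) : ℚ) : ℂ) *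
        (((1 / (t : ℝ) : ℝ)) : ℂ) ^ k
      rw [frob_eq, shift_eq]
      unfold Pool.Agent.Y119.HY.hq
      push_cast
      rfl
    · intro c _ hc
      rw [if_neg, mul_zero]
      intro h
      apply hc
      apply Fin.ext
      simp only
      omega
    · intro h
      exact absurd (Finset.mem_univ _) h

theorem point_eq {k n : ℕ} (l : Fin k → ℂ) (X : Fin k → Matrix (Fin n) (Fin n) ℂ) :
    point l X = Pool.Agent.R351.GD.H.pm l X := by
  funext v
  obtain ⟨i, _ | p⟩ := v
  · rfl
  · rfl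

open Classical in
/-- Let `β_1, …, β_k` be families of `m ≥ 1` rational numbers which are not integers; `Y_i` and `J_i` are the period matrix
and the alternating form of the hypergeometric equation `(θ^(2 m) - z ∏_j (θ^2 - β_{i,j}^2)) f = 0`. For all `q` there is `C`
such that for all `δ`, all constant matrices `Ω_1, …, Ω_k`, all `w ∈ ℂ^q` and all `T ≥ 1`: all `k`-tuples of fibres
`z_i = 1 / t_i`, `1 ≤ t_i ≤ T`, but at most `C T^(k - 1 / (δ + 2)^C)` are generic, that is, all relations of degree `≤ δ` over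
number fields of degree `≤ δ` between the `Ω_i`, `w`, the logarithms and the periods of the fibres hold for all matrices in
the symplectic groups `Sp(J_i)`. -/
theorem result {m : ℕ} (hm : 1 ≤ m) {k : ℕ} (β : Fin k → Fin m → ℚ) (hβ : ∀ i j, ∀ a : ℤ, β i j ≠ a) (q : ℕ) :
    ∃ C : ℕ, ∀ (δ : ℕ) (Ω : Fin k → Matrix (Fin (2 * m)) (Fin (2 * m)) ℂ) (w : Fin q → ℂ) (T : ℕ), 1 ≤ T →
      (((Fintype.piFinset fun _ : Fin k => Finset.Icc 1 T).filter fun t => ¬ Generic δ β Ω w t).card : ℝ) ≤
        C * (T : ℝ) ^ ((k : ℝ) - 1 / ((δ : ℝ) + 2) ^ C) := by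
  have hβ' : ∀ i j, ∀ l : ℕ, (l : ℚ) + β i j ≠ 0 ∧ (l : ℚ) + -β i j ≠ 0 := by
    intro i j l
    constructor
    · intro h
      apply hβ i j (-(l : ℤ))
      push_cast
      linear_combination h
    · intro h
      apply hβ i j (l : ℤ)
      push_cast
      linear_combination -h
  have hQ := fun i => QD_QB hm (hβ' i)
  have hH := fun i a b => Pool.Agent.Y119.HY.sdc_hps (hβ' i) (hQ i) a b
  obtain ⟨C, hC⟩ := Pool.Agent.R351.GD.H.tupH hQ hH (k * (2 * m * (2 * m)) + q)
  refine ⟨C, fun δ Ω w T hT => ?_⟩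
  have hcard : Fintype.card (Fin k × Fin (2 * m) × Fin (2 * m) ⊕ Fin q) = k * (2 * m * (2 * m)) + q := by
    rw [Fintype.card_sum, Fintype.card_prod, Fintype.card_prod, Fintype.card_fin, Fintype.card_fin, Fintype.card_fin]
  have h1 := hC δ _ hcard (consts Ω w) (fun l a b => Sum.inl (l, a, b)) T hT
  refine le_trans ?_ h1
  have h2 : ((Fintype.piFinset fun _ : Fin k => Finset.Icc 1 T).filter fun t => ¬ Generic δ β Ω w t) ⊆
      (Fintype.piFinset fun _ : Fin k => Finset.Icc 1 T).filter fun t => ¬ Pool.Agent.R351.GD.H.GenH δ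
        (fun i => Pool.Agent.Y119.HY.QB (β i)) (consts Ω w) (fun l a b => Sum.inl (l, a, b)) t := by
    intro t ht
    obtain ⟨ht1, ht2⟩ := Finset.mem_filter.1 ht
    refine Finset.mem_filter.2 ⟨ht1, fun hgen => ht2 ?_⟩
    intro K hKf hKd P hP hP0 l g hg
    have hO : ∀ i : Fin k, (Matrix.of fun a b => consts Ω w (Sum.inl (i, a, b))) = Ω i := by
      intro i
      ext a b
      rfl
    have h3 := hgen K hKf hKd P hP (by
      rw [← hP0, point_eq]
      simp only [hO, Y_eq]) l g (fun i => by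
        have h6 : (g i).transpose * J (β i) * g i = J (β i) := hg i
        rw [J_eq] at h6
        exact h6)
    simp only [hO] at h3
    rw [point_eq]
    exact h3
  exact_mod_cast Finset.card_le_card h2

end Pool.Agent.Results.MP_cbf1af_ag.GrowingDegreeTuples
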