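import Pool.Agent.R437.Met.Tors
import Pool.Agent.Y890.HE.Main

/-!
# The Grothendieck period conjecture for products of hyperelliptic curves whose branch points are near given points

Let `n i` be even numbers (`i` in a finite nonempty set), and consider the products of the hyperelliptic curves
`y² = ∏_{r ≤ n i} (x - e i r)`, of genus `n i / 2`, over the space `Conf n` of the branch points `e` (with increasing
real parts), of dimension `D = ∑ (n i + 1)`. The period matrix `pm n e` and `π` give a point of a variety `torsor n e`,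
defined over the field of the branch points, whose dimension is that of the Mumford–Tate group of a very general member
of the family. Let `K` be a number field in `ℂ` and `c_0, c_1, …` any complex numbers. For every `τ > 0` and all `ξ` in
`Conf n` outside a set of Hausdorff dimension at most `2 [K : ℚ] (D - 1) / τ` all systems `e` of branch points in `K` of
height at most `T`, `T` large, with `|ξ_j - e_j| ≤ C T ^ (-τ)` have the following property: all relations of degree at
most `k`, with coefficients in the integers of `K` of size at most `T ^ k`, between the periods and the powers of `π`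
hold on the whole of `torsor n e`, as the conjecture predicts, and all such relations whose coefficients are linear
combinations of `c_0, …, c_(k-1)` hold at all `(Y, π)` in `torsor n e`. The starting file `AllHyperellipticCurves` covers
the exceptional points of height at most `T` by few hypersurfaces.
-/

set_option autoImplicit false

open NumberField

namespace Pool.Agent.Results.MP_cbf1af_ag.NearEveryPoint

open Pool.Agent Pool.Agent.Y890.MV Pool.Agent.Y890.HE
open Pool.Agent.Y124 (Cov)

/-- `x` is the quotient of two integers of `K` all of whose conjugates have absolute value at most `T`. -/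
def HeightLe (K : Type) [Field K] [NumberField K] (T : ℝ) (x : K) : Prop :=
  ∃ a b : 𝓞 K, b ≠ 0 ∧ (∀ φ : K →+* ℂ, ‖φ a‖ ≤ T ∧ ‖φ b‖ ≤ T) ∧ x = a / b

lemma conf_open {ι : Type} [Fintype ι] [DecidableEq ι] (n : ι → ℕ) : IsOpen (Conf n) := by
  rw [conf_eq]
  exact USig_open fun i => Ord_open (n i)

lemma cover {ι : Type} [Fintype ι] [DecidableEq ι] [Nonempty ι] (n : ι → ℕ) (hn : ∀ i, Even (n i)) (k : ℕ)
    (hk : 0 < k) (ε : ℝ) (hε : 0 < ε) : ∃ (D : ℕ) (C T₀ : ℝ), 0 ≤ C ∧ ∀ (K : Type) [Field K] [NumberField K],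
      Module.finrank ℚ K ≤ k → ∀ (io : K →+* ℂ) (ξ : Fin k → ℂ) (T : ℝ), T₀ ≤ T →
        Cov D ⌊C * T ^ ε⌋₊ ((fun (s : (Σ i, Fin (n i + 1)) → K) j => io (s j)) '' Exceptional n k K io ξ T) := by
  classical
  obtain ⟨i0⟩ := ‹Nonempty ι›
  haveI : Nonempty (Σ i, Fin (n i + 1)) := ⟨⟨i0, 0⟩⟩
  have hUo : IsOpen (USig (fun i => Ord (n i))) := USig_open fun i => Ord_open (n i)
  have hUc : IsPreconnected (USig (fun i => Ord (n i))) := (USig_convex fun i => Ord_convex (n i)).isPreconnected
  have hUn : (USig (fun i => Ord (n i))).Nonempty := USig_nonempty fun i => Ord_nonempty (n i)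
  have hf : ∀ q, AnalyticOnNhd ℂ (fSig (fun i => fH (n i)) q) (USig (fun i => Ord (n i))) :=
    fSig_an fun i s => fH_an s
  have hT : TorM (USig (fun i => Ord (n i))) (fSig (fun i => fH (n i))) (TSig (fun i => TorH (n i))) :=
    TorM.sig fun i => torH (hn i)
  obtain ⟨D, C, T₀, hC, hT₀, H⟩ := excT_cov hUc hUo hUn hf hT (InnerM (Conf n) k) (innerM_compact _ _)
    (innerM_sub _ hk) k (Fin k) k (k : ℝ) ε hε
  refine ⟨D, 2 * C, T₀, by positivity, fun K _ _ hK io ξ T hT0 => ?_⟩
  have h1 := (H K hK io ξ T hT0).union (H K hK io (fun a : Fin k => (Real.pi : ℂ) ^ (a : ℕ)) T hT0)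
  rw [← Set.image_union] at h1
  refine h1.mono le_rfl ?_ (Set.image_mono (exceptional_sub hn k hk K io ξ T))
  have h2 : (0 : ℝ) ≤ C * T ^ ε := by
    have : (0 : ℝ) < T := by linarith
    positivity
  apply Nat.le_floor
  push_cast
  have h3 := Nat.floor_le h2
  linarith

/-- **Branch points near given points.** Let `n i` be even numbers (`i` in a finite nonempty set), `D` the sum of the
`n i + 1`; for a point `e` of `Conf n` (branch points `e i r`, `r ≤ n i`, with increasing real parts) let `pm n e i` be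
the period matrix of `y² = ∏ (x - e i r)`. Let `K` be a number field with an embedding `io` in `ℂ`, `c` a sequence of
complex numbers, `τ > 0`. Then `(pm n e, π)` is a point of `torsor n e`; the periods are given by the usual integrals
for real `e`; and there is a set `E` of Hausdorff dimension at most `2 [K : ℚ] (D - 1) / τ` such that for all `ξ` in
`Conf n` outside `E` there is `k₀` such that for all `k ≥ k₀`, all `C` and all large `T`: at all points `e` with
coordinates in `K` of height at most `T` and `|ξ_j - e_j| ≤ C T ^ (-τ)`, all relations of degree at most `k`, with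
coefficients in the integers of `K` of size at most `T ^ k`, between the periods and the powers of `π` (`a`-th power,
`a < k`) hold on `torsor n e`, and those between the periods and the `c_a`, `a < k`, hold at the `(Y, π)` in
`torsor n e`. -/
theorem result {ι : Type} [Fintype ι] [DecidableEq ι] [Nonempty ι] (n : ι → ℕ) (hn : ∀ i, Even (n i))
    (K : Type) [Field K] [NumberField K] (io : K →+* ℂ) (c : ℕ → ℂ) (τ : ℝ) (hτ : 0 < τ) :
    (∀ e ∈ Conf n, (pm n e, (Real.pi : ℂ)) ∈ torsor n e) ∧
    (∀ e : (Σ i, Fin (n i + 1)) → ℝ, (∀ i, StrictMono fun r => e ⟨i, r⟩) → ∀ (i : ι) (l j : Fin (n i)),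
      pm n (fun q => (e q : ℂ)) i l j =
        ((∫ x in (e ⟨i, l.castSucc⟩)..(e ⟨i, l.succ⟩), x ^ (j : ℕ) / √|∏ r, (x - e ⟨i, r⟩)| : ℝ) : ℂ)) ∧
    ∃ E : Set ((Σ i, Fin (n i + 1)) → ℂ),
      dimH E ≤ ENNReal.ofReal
        (2 * (Module.finrank ℚ K : ℝ) * ((Fintype.card (Σ i, Fin (n i + 1)) : ℝ) - 1) / τ) ∧
      ∀ ξ ∈ Conf n, ξ ∉ E → ∃ k₀ : ℕ, ∀ k : ℕ, k₀ ≤ k → ∀ C : ℝ, ∃ T₁ : ℝ, ∀ T : ℝ, T₁ ≤ T →
        ∀ e : (Σ i, Fin (n i + 1)) → K, (∀ j, HeightLe K T (e j) ∧ ‖ξ j - io (e j)‖ ≤ C * T ^ (-τ)) →
          Generic n k K io (fun a : Fin k => c a) T (fun j => io (e j)) := by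
  classical
  haveI : Nonempty (Σ i, Fin (n i + 1)) := by
    obtain ⟨i0⟩ := ‹Nonempty ι›
    exact ⟨⟨i0, 0⟩⟩
  refine ⟨fun _ he => pm_mem hn he, pm_real, ?_⟩
  obtain ⟨E, hE, h⟩ := R437.Met.Tors.near K io (Conf n) (conf_open n)
    (fun k T s => ¬ Generic n k K io (fun a : Fin k => c a) T (fun j => io (s j)))
    (fun k T T' s hT1 hTT' hbad hgen => hbad fun c' hc' => hgen c' fun l a φ => (hc' l a φ).trans
      (pow_le_pow_left₀ (by linarith) hTT' k))
    (max (Module.finrank ℚ K) 1)
    (fun k ε hk hε => by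
      obtain ⟨D, C, T₀, hC, H⟩ := cover n hn k (lt_of_lt_of_le one_pos ((le_max_right _ _).trans hk)) ε hε
      exact ⟨D, C, T₀, hC, fun T hT => H K ((le_max_left _ _).trans hk) io (fun a : Fin k => c a) T hT⟩)
    τ hτ
  refine ⟨E, hE, fun ξ hξ hξE => ?_⟩
  obtain ⟨k₀, hk₀⟩ := h ξ hξ hξE
  refine ⟨k₀, fun k hk C => ?_⟩
  obtain ⟨T₁, hT₁⟩ := hk₀ k hk C
  exact ⟨T₁, fun T hT e he => not_not.1 (hT₁ T hT e fun j => ⟨R437.Met.Tors.htLe_of (he j).1, (he j).2⟩)⟩

end Pool.Agent.Results.MP_cbf1af_ag.NearEveryPoint
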