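import Pool.Agent.R913.Tor.Quad

/-!
# MP_cbf1af_ag: quadratic relations between the periods

Let `Y` be a smooth projective variety over a number field, `V = H^j(Y)` with `j ≥ 1`, `c` its period matrix (rows: a
basis of the de Rham cohomology, columns: a basis of the homology), and `K` the field of the algebraic numbers.
Suppose that the Hodge tensors of `V` are absolute Hodge tensors (Deligne: abelian varieties; also K3 surfaces, and the
whole category generated by abelian varieties).  Then the isomorphisms between the realizations which respect them form
a torsor `S` over `K` under `MT(V)`, which is irreducible and contains `c`; `dim S = dim MT(V)`.  A polarization of `Y`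
induces forms `Q` on the homology and `Q'` on the de Rham cohomology, and all `x ∈ S` are similitudes,
`x Q xᵀ = μ Q'`.  (In general one may take for `S` the torsor of André's motivic Galois group.)

The relation `x Q xᵀ = μ Q'` is quadratic, and so are the consequences of the algebraic cycles on `Y × Y` for the
periods of `H^j`.  The cycles on the higher powers of `Y` give relations of higher degree, and the period conjecture
says that there are no relations but those.  We prove that, apart from the quadratic relations, only the failure of the
group property of the Zariski closure can be responsible for a failure of the conjecture: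

**Theorem.**  Suppose that every homogeneous quadratic relation with algebraic coefficients between the entries of `c`
holds on `S`, and that the centre of `MT(V)` consists of homotheties (or more generally that `Lie S` is the sum of its
commutators and of the logarithmic derivatives of `c`).  Then `S` is contained in every torsor over `K` which
contains `c`.  Moreover the period conjecture `trdeg = dim MT(V)` holds for `V` if and only if the Zariski closure of
`c` over `K` is a torsor (closed under `x y⁻¹ z`) and every homogeneous quadratic relation over `K` between the periods
holds on `S`.

So the conjecture for `V` is equivalent to its quadratic part together with the statement that the Zariski closure of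
the period point is a torsor; no relations of higher degree have to be considered.  The same holds without a
polarization (for any motive) with the homogeneous relations of degree equal to the rank of `V` in place of the
quadratic relations.
-/

set_option autoImplicit false

namespace Pool.Agent.Results.MP_cbf1af_ag.QuadraticRelations

open Matrix Pool.Agent.R913.Tor Pool.Agent.TH127.PT

/-- **The period conjecture and the quadratic relations between periods.** -/
theorem result (K : Subfield ℂ) [IsAlgClosed K] {N : Type} [Fintype N] [DecidableEq N] [Nonempty N]
    (S : Set (Matrix N N ℂ)) (hS : IsSubtorsor K S) (hirr : Irred S) (c : Matrix N N ℂ) (hc : c ∈ S)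
    (d : ℕ) (hd : (d = 2 ∧ Similitudes K S) ∨ d = Fintype.card N) :
    (Algebra.trdeg K (Algebra.adjoin K (Set.range fun b : N × N => c b.1 b.2)) =
        (Module.finrank ℂ (LM S) : Cardinal) ↔
      IsTorsor (Zar K c) ∧ RelHold K S c d ∧ LM S ≤ der (LM S) ⊔ logs K c) ∧
    (RelHold K S c d → LM S ≤ der (LM S) ⊔ logs K c → ∀ T, IsSubtorsor K T → c ∈ T → S ⊆ T) ∧
    ((∃ W, LM S ≤ der (LM S) ⊔ Submodule.span ℂ {W}) → det c ∉ K →
      (Algebra.trdeg K (Algebra.adjoin K (Set.range fun b : N × N => c b.1 b.2)) =
          (Module.finrank ℂ (LM S) : Cardinal) ↔ IsTorsor (Zar K c) ∧ RelHold K S c d) ∧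
      (RelHold K S c d → ∀ T, IsSubtorsor K T → c ∈ T → S ⊆ T)) := by
  have hsub : RelHold K S c d → SubIdeals K (LM S) c := by
    rcases hd with ⟨rfl, hsim⟩ | rfl
    · exact subIdeals_of_quad hS hsim hc
    · exact subIdeals_of_card hS hc
  obtain ⟨h1, h2⟩ := bounded_main hS hirr hc hsub
  refine ⟨h2, fun h3 h4 => h1 ⟨h3, h4⟩, ?_⟩
  rintro ⟨W, hW⟩ hdet
  have hab : LM S ≤ der (LM S) ⊔ logs K c := ab_of_det hS hc hW hdet
  refine ⟨?_, fun h3 => h1 ⟨h3, hab⟩⟩
  constructor
  · intro h3
    have h4 := h2.1 h3
    exact ⟨h4.1, h4.2.1⟩
  · rintro ⟨h3, h4⟩
    exact h2.2 ⟨h3, h4, hab⟩

end Pool.Agent.Results.MP_cbf1af_ag.QuadraticRelations
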